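import Mathlib

set_option autoImplicit false

/-! # Integers composed of given primes, and integers with small radical -/

namespace Pool.Agent.helper34.ET

open Finset

/-- The integers `1 ≤ n ≤ X` all of whose primes divide `m`. -/
def Sm (X m : ℕ) : Finset ℕ := {n ∈ Icc 1 X | n.primeFactors ⊆ m.primeFactors}

/-- The product of the primes that divide `n`. -/
def rad (n : ℕ) : ℕ := ∏ p ∈ n.primeFactors, p

lemma rad_pos (n : ℕ) : 1 ≤ rad n := by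
  unfold rad
  exact Finset.prod_pos fun p hp => (Nat.prime_of_mem_primeFactors hp).pos

lemma rad_le (n : ℕ) (hn : 1 ≤ n) : rad n ≤ n :=
  Nat.le_of_dvd hn (Nat.prod_primeFactors_dvd n)

lemma rad_pf (n : ℕ) : (rad n).primeFactors = n.primeFactors := by
  unfold rad
  exact Nat.primeFactors_prod fun p hp => Nat.prime_of_mem_primeFactors hp

/-- The function `n ↦ n^(-ε)`. -/
noncomputable def fe (ε : ℝ) : ℕ →* ℝ where
  toFun n := (n : ℝ) ^ (-ε)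
  map_one' := by simp
  map_mul' m n := by
    push_cast
    exact Real.mul_rpow (Nat.cast_nonneg m) (Nat.cast_nonneg n)

lemma fe_apply (ε : ℝ) (n : ℕ) : fe ε n = (n : ℝ) ^ (-ε) := rfl

lemma fe_prime (ε : ℝ) (hε : 0 < ε) {p : ℕ} (hp : p.Prime) : (0 : ℝ) < (p : ℝ) ^ (-ε) ∧ (p : ℝ) ^ (-ε) ≤ (2 : ℝ) ^ (-ε) := by
  have hp2 : (2 : ℝ) ≤ p := by exact_mod_cast hp.two_le
  refine ⟨Real.rpow_pos_of_pos (by linarith) _, ?_⟩
  exact Real.rpow_le_rpow_of_nonpos (by norm_num) hp2 (by linarith)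

lemma two_lt (ε : ℝ) (hε : 0 < ε) : (2 : ℝ) ^ (-ε) < 1 :=
  Real.rpow_lt_one_of_one_lt_of_neg (by norm_num) (by linarith)

/-- Rankin. -/
lemma rankin (ε : ℝ) (hε : 0 < ε) (X m : ℕ) :
    ((#(Sm X m) : ℕ) : ℝ) ≤ (X : ℝ) ^ ε * ∏ p ∈ m.primeFactors, (1 - (p : ℝ) ^ (-ε))⁻¹ := by
  have hlt : ∀ {p : ℕ}, p.Prime → ‖fe ε p‖ < 1 := by
    intro p hp
    obtain ⟨h1, h2⟩ := fe_prime ε hε hp
    rw [fe_apply, Real.norm_of_nonneg h1.le]
    exact h2.trans_lt (two_lt ε hε)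
  have H := (EulerProduct.summable_and_hasSum_factoredNumbers_prod_filter_prime_geometric hlt m.primeFactors).2
  rw [Finset.filter_true_of_mem (fun p hp => Nat.prime_of_mem_primeFactors hp)] at H
  have H' : HasSum (Set.indicator (Nat.factoredNumbers m.primeFactors) (fun n => fe ε n))
      (∏ p ∈ m.primeFactors, (1 - fe ε p)⁻¹) := (hasSum_subtype_iff_indicator).1 H
  have h0 : ∀ n, 0 ≤ Set.indicator (Nat.factoredNumbers m.primeFactors) (fun n => fe ε n) n := by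
    intro n
    refine Set.indicator_nonneg (fun x _ => ?_) n
    rw [fe_apply]
    exact Real.rpow_nonneg (Nat.cast_nonneg x) _
  have H2 := sum_le_hasSum (Sm X m) (fun n _ => h0 n) H'
  have H3 : ∑ n ∈ Sm X m, Set.indicator (Nat.factoredNumbers m.primeFactors) (fun n => fe ε n) n =
      ∑ n ∈ Sm X m, (n : ℝ) ^ (-ε) := by
    refine Finset.sum_congr rfl fun n hn => ?_
    have hn' := (mem_filter.1 hn)
    have hn1 := (mem_Icc.1 hn'.1).1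
    rw [Set.indicator_of_mem, fe_apply]
    refine ⟨by omega, fun p hp => ?_⟩
    exact hn'.2 (Nat.mem_primeFactors_iff_mem_primeFactorsList.2 hp)
  rw [H3] at H2
  have H4 : ((#(Sm X m) : ℕ) : ℝ) ≤ ∑ n ∈ Sm X m, (X : ℝ) ^ ε * (n : ℝ) ^ (-ε) := by
    rw [Finset.card_eq_sum_ones]
    push_cast
    refine Finset.sum_le_sum fun n hn => ?_
    have hn' := mem_Icc.1 (mem_filter.1 hn).1
    have h1 : (0 : ℝ) < n := by exact_mod_cast hn'.1
    have h2 : (n : ℝ) ≤ X := by exact_mod_cast hn'.2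
    rw [Real.rpow_neg h1.le, ← div_eq_mul_inv, one_le_div (Real.rpow_pos_of_pos h1 _)]
    exact Real.rpow_le_rpow h1.le h2 hε.le
  rw [← Finset.mul_sum] at H4
  refine H4.trans (mul_le_mul_of_nonneg_left H2 (Real.rpow_nonneg (Nat.cast_nonneg X) _))

/-- The product over the primes of `m`. -/
lemma prod_bound (ε : ℝ) (hε : 0 < ε) : ∃ C : ℝ, 1 ≤ C ∧ ∀ m : ℕ, 1 ≤ m →
    ∏ p ∈ m.primeFactors, (1 - (p : ℝ) ^ (-ε))⁻¹ ≤ C * (m : ℝ) ^ ε := by
  set D : ℝ := (1 - (2 : ℝ) ^ (-ε))⁻¹ with hD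
  have h2 := two_lt ε hε
  have h20 : (0 : ℝ) < (2 : ℝ) ^ (-ε) := Real.rpow_pos_of_pos (by norm_num) _
  have hD1 : 1 ≤ D := by
    rw [hD]
    exact (one_le_inv₀ (by linarith)).2 (by linarith)
  set P : ℕ := ⌈(2 : ℝ) ^ (1 / ε)⌉₊ with hP
  refine ⟨D ^ P, one_le_pow₀ hD1, fun m hm => ?_⟩
  have key : ∀ p ∈ m.primeFactors, (1 - (p : ℝ) ^ (-ε))⁻¹ ≤ (if p < P then D else 1) * (p : ℝ) ^ ε := by
    intro p hp
    have hpp := Nat.prime_of_mem_primeFactors hp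
    obtain ⟨h3, h4⟩ := fe_prime ε hε hpp
    have hp1 : (1 : ℝ) ≤ p := by exact_mod_cast hpp.one_lt.le
    have hpe : (1 : ℝ) ≤ (p : ℝ) ^ ε := Real.one_le_rpow hp1 hε.le
    by_cases hc : p < P
    · rw [if_pos hc]
      have h5 : (1 - (p : ℝ) ^ (-ε))⁻¹ ≤ D := by
        rw [hD]
        exact inv_anti₀ (by linarith) (by linarith)
      calc (1 - (p : ℝ) ^ (-ε))⁻¹ ≤ D := h5
        _ = D * 1 := by ring
        _ ≤ D * (p : ℝ) ^ ε := mul_le_mul_of_nonneg_left hpe (by linarith)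
    · rw [if_neg hc, one_mul]
      have h6 : (2 : ℝ) ^ (1 / ε) ≤ p := by
        have := Nat.le_ceil ((2 : ℝ) ^ (1 / ε))
        refine this.trans ?_
        exact_mod_cast not_lt.1 hc
      have h7 : (2 : ℝ) ≤ (p : ℝ) ^ ε := by
        have h8 := Real.rpow_le_rpow (Real.rpow_nonneg (by norm_num) _) h6 hε.le
        rw [← Real.rpow_mul (by norm_num), one_div, inv_mul_cancel₀ hε.ne', Real.rpow_one] at h8
        exact h8
      have h9 : (p : ℝ) ^ (-ε) ≤ 1 / 2 := by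
        rw [Real.rpow_neg (by linarith), one_div]
        exact inv_anti₀ (by norm_num) h7
      calc (1 - (p : ℝ) ^ (-ε))⁻¹ ≤ (1 / 2 : ℝ)⁻¹ := inv_anti₀ (by norm_num) (by linarith)
        _ = 2 := by norm_num
        _ ≤ (p : ℝ) ^ ε := h7
  have hstep : ∏ p ∈ m.primeFactors, (1 - (p : ℝ) ^ (-ε))⁻¹ ≤ ∏ p ∈ m.primeFactors, (if p < P then D else 1) * (p : ℝ) ^ ε := by
    refine Finset.prod_le_prod (fun p hp => ?_) key
    have hpp := Nat.prime_of_mem_primeFactors hp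
    obtain ⟨h3, h4⟩ := fe_prime ε hε hpp
    exact inv_nonneg.2 (by linarith)
  refine hstep.trans ?_
  rw [Finset.prod_mul_distrib]
  have e1 : ∏ p ∈ m.primeFactors, (if p < P then D else 1) ≤ D ^ P := by
    rw [Finset.prod_ite, Finset.prod_const, Finset.prod_const_one, mul_one]
    refine pow_le_pow_right₀ hD1 ?_
    calc #(m.primeFactors.filter (fun p => p < P)) ≤ #(range P) := by
          refine Finset.card_le_card fun p hp => ?_
          rw [mem_range]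
          exact (mem_filter.1 hp).2
      _ = P := card_range P
  have e2 : ∏ p ∈ m.primeFactors, (p : ℝ) ^ ε ≤ (m : ℝ) ^ ε := by
    rw [Real.finsetProd_rpow _ _ (fun p _ => Nat.cast_nonneg p)]
    refine Real.rpow_le_rpow (Finset.prod_nonneg fun p _ => Nat.cast_nonneg p) ?_ hε.le
    have h := rad_le m hm
    unfold rad at h
    have h' : ((∏ p ∈ m.primeFactors, p : ℕ) : ℝ) ≤ (m : ℝ) := Nat.cast_le.2 h
    rwa [Nat.cast_prod] at h'
  refine mul_le_mul e1 e2 (Finset.prod_nonneg fun p _ => Real.rpow_nonneg (Nat.cast_nonneg p) _) ?_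
  exact pow_nonneg (by linarith) _

/-- The uniform bound. -/
theorem sm_bound (ε : ℝ) (hε : 0 < ε) : ∃ C : ℝ, 1 ≤ C ∧ ∀ X m : ℕ, 1 ≤ X → 1 ≤ m → m ≤ (X + 1) ^ 2 →
    ((#(Sm (X + 1) m) : ℕ) : ℝ) ≤ C * (X : ℝ) ^ ε := by
  obtain ⟨C, hC, h⟩ := prod_bound (ε / 3) (by linarith)
  refine ⟨C * 2 ^ ε, ?_, fun X m hX hm hmX => ?_⟩
  · have : (1 : ℝ) ≤ 2 ^ ε := Real.one_le_rpow (by norm_num) hε.le
    nlinarith
  have h1 := rankin (ε / 3) (by linarith) (X + 1) m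
  have h2 := h m hm
  have hX0 : (1 : ℝ) ≤ X := by exact_mod_cast hX
  have h3 : (m : ℝ) ^ (ε / 3) ≤ (((X + 1 : ℕ) : ℝ) ^ (2 : ℕ)) ^ (ε / 3) := by
    refine Real.rpow_le_rpow (Nat.cast_nonneg m) ?_ (by linarith)
    exact_mod_cast hmX
  have hY : (0 : ℝ) ≤ ((X + 1 : ℕ) : ℝ) := Nat.cast_nonneg _
  have h4 : ((X + 1 : ℕ) : ℝ) ^ (ε / 3) * (((X + 1 : ℕ) : ℝ) ^ (2 : ℕ)) ^ (ε / 3) = ((X + 1 : ℕ) : ℝ) ^ ε := by
    rw [← Real.rpow_natCast, ← Real.rpow_mul hY, ← Real.rpow_add (by positivity)]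
    congr 1
    push_cast
    ring
  have h5 : ((X + 1 : ℕ) : ℝ) ^ ε ≤ 2 ^ ε * (X : ℝ) ^ ε := by
    rw [← Real.mul_rpow (by norm_num) (by linarith)]
    refine Real.rpow_le_rpow hY ?_ hε.le
    push_cast
    linarith
  have h6 : (0 : ℝ) ≤ ((X + 1 : ℕ) : ℝ) ^ (ε / 3) := Real.rpow_nonneg hY _
  calc ((#(Sm (X + 1) m) : ℕ) : ℝ)
      ≤ ((X + 1 : ℕ) : ℝ) ^ (ε / 3) * ∏ p ∈ m.primeFactors, (1 - (p : ℝ) ^ (-(ε / 3)))⁻¹ := h1
    _ ≤ ((X + 1 : ℕ) : ℝ) ^ (ε / 3) * (C * (m : ℝ) ^ (ε / 3)) := mul_le_mul_of_nonneg_left h2 h6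
    _ ≤ ((X + 1 : ℕ) : ℝ) ^ (ε / 3) * (C * (((X + 1 : ℕ) : ℝ) ^ (2 : ℕ)) ^ (ε / 3)) := by
        refine mul_le_mul_of_nonneg_left (mul_le_mul_of_nonneg_left h3 (by linarith)) h6
    _ = C * (((X + 1 : ℕ) : ℝ) ^ (ε / 3) * (((X + 1 : ℕ) : ℝ) ^ (2 : ℕ)) ^ (ε / 3)) := by ring
    _ = C * ((X + 1 : ℕ) : ℝ) ^ ε := by rw [h4]
    _ ≤ C * (2 ^ ε * (X : ℝ) ^ ε) := mul_le_mul_of_nonneg_left h5 (by linarith)
    _ = C * 2 ^ ε * (X : ℝ) ^ ε := by ring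

/-- Few integers have a small radical. -/
lemma rad_count (X Y : ℕ) (K : ℝ) (hK : ∀ m : ℕ, 1 ≤ m → m ≤ (X + 1) ^ 2 → ((#(Sm (X + 1) m) : ℕ) : ℝ) ≤ K) :
    ((#{n ∈ Icc 1 (X + 1) | rad n ≤ Y} : ℕ) : ℝ) ≤ Y * K := by
  have hK0 : 0 ≤ K := le_trans (Nat.cast_nonneg _) (hK 1 le_rfl (Nat.one_le_pow _ _ (by omega)))
  have hsub : ({n ∈ Icc 1 (X + 1) | rad n ≤ Y} : Finset ℕ) ⊆
      ({r ∈ Icc 1 Y | r ≤ X + 1} : Finset ℕ).biUnion (fun r => Sm (X + 1) r) := by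
    intro n hn
    obtain ⟨h1, h2⟩ := mem_filter.1 hn
    have h3 := mem_Icc.1 h1
    rw [mem_biUnion]
    refine ⟨rad n, ?_, ?_⟩
    · rw [mem_filter, mem_Icc]
      exact ⟨⟨rad_pos n, h2⟩, (rad_le n h3.1).trans h3.2⟩
    · unfold Sm
      rw [mem_filter, rad_pf]
      exact ⟨h1, fun p hp => hp⟩
  calc ((#{n ∈ Icc 1 (X + 1) | rad n ≤ Y} : ℕ) : ℝ)
      ≤ ((∑ r ∈ ({r ∈ Icc 1 Y | r ≤ X + 1} : Finset ℕ), #(Sm (X + 1) r) : ℕ) : ℝ) := by
        exact_mod_cast (Finset.card_le_card hsub).trans Finset.card_biUnion_le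
    _ = ∑ r ∈ ({r ∈ Icc 1 Y | r ≤ X + 1} : Finset ℕ), ((#(Sm (X + 1) r) : ℕ) : ℝ) := by push_cast; rfl
    _ ≤ ∑ _r ∈ ({r ∈ Icc 1 Y | r ≤ X + 1} : Finset ℕ), K := by
        refine Finset.sum_le_sum fun r hr => ?_
        obtain ⟨h1, h2⟩ := mem_filter.1 hr
        refine hK r (mem_Icc.1 h1).1 (h2.trans ?_)
        nlinarith
    _ = (#({r ∈ Icc 1 Y | r ≤ X + 1} : Finset ℕ) : ℝ) * K := by rw [Finset.sum_const, nsmul_eq_mul]
    _ ≤ Y * K := by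
        refine mul_le_mul_of_nonneg_right ?_ hK0
        have : #({r ∈ Icc 1 Y | r ≤ X + 1} : Finset ℕ) ≤ Y := by
          refine (Finset.card_le_card (Finset.filter_subset _ _)).trans ?_
          rw [Nat.card_Icc]
          omega
        exact_mod_cast this

/-- The sum of the reciprocals of the radicals. -/
lemma rad_sum (X : ℕ) (K : ℝ) (hX : 1 ≤ X) (hK : ∀ m : ℕ, 1 ≤ m → m ≤ (X + 1) ^ 2 → ((#(Sm (X + 1) m) : ℕ) : ℝ) ≤ K) :
    ∑ n ∈ Icc 1 X, (1 / (rad n : ℝ)) ≤ K * (1 + Real.log X) := by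
  have hmaps : ∀ n ∈ Icc 1 X, rad n ∈ Icc 1 X := by
    intro n hn
    have := mem_Icc.1 hn
    rw [mem_Icc]
    exact ⟨rad_pos n, (rad_le n this.1).trans this.2⟩
  rw [← Finset.sum_fiberwise_of_maps_to hmaps]
  have h1 : ∀ r ∈ Icc 1 X, ∑ n ∈ Icc 1 X with rad n = r, (1 / (rad n : ℝ)) ≤ K * (1 / (r : ℝ)) := by
    intro r hr
    have hr' := mem_Icc.1 hr
    rw [Finset.sum_congr rfl (fun n hn => by rw [(mem_filter.1 hn).2])]
    rw [Finset.sum_const, nsmul_eq_mul]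
    refine mul_le_mul_of_nonneg_right ?_ (by positivity)
    refine le_trans ?_ (hK r hr'.1 ?_)
    · have : #{n ∈ Icc 1 X | rad n = r} ≤ #(Sm (X + 1) r) := by
        refine Finset.card_le_card fun n hn => ?_
        obtain ⟨h2, h3⟩ := mem_filter.1 hn
        unfold Sm
        rw [mem_filter, ← h3, rad_pf, mem_Icc]
        have := mem_Icc.1 h2
        exact ⟨⟨this.1, by omega⟩, fun p hp => hp⟩
      exact_mod_cast this
    · nlinarith
  refine (Finset.sum_le_sum h1).trans ?_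
  rw [← Finset.mul_sum]
  have hK0 : 0 ≤ K := le_trans (Nat.cast_nonneg _) (hK 1 le_rfl (Nat.one_le_pow _ _ (by omega)))
  refine mul_le_mul_of_nonneg_left ?_ hK0
  have h2 := harmonic_le_one_add_log X
  have h3 : ((harmonic X : ℚ) : ℝ) = ∑ r ∈ Icc 1 X, (1 / (r : ℝ)) := by
    rw [harmonic_eq_sum_Icc]
    push_cast
    refine Finset.sum_congr rfl fun r _ => by rw [one_div]
  rw [← h3]
  exact h2

end Pool.Agent.helper34.ET
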