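import Pool.Agent.helper34.ET.Count

set_option autoImplicit false

/-! # Counting the triples -/

namespace Pool.Agent.helper34.ET

open Finset

/-- `c` is isolated: every prime of `a` and of `b` divides `c`, every prime of `c` divides `a b`. -/
def Al (a b c : ℕ) : Prop :=
  a.primeFactors ⊆ c.primeFactors ∧ b.primeFactors ⊆ c.primeFactors ∧ c.primeFactors ⊆ a.primeFactors ∪ b.primeFactors

/-- The integers of the box. -/
def Box (X : ℕ) : Finset (ℕ × ℕ × ℕ) := Icc 1 X ×ˢ Icc 1 X ×ˢ Icc 1 X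

lemma mem_Box (X a b c : ℕ) : (a, b, c) ∈ Box X ↔ (1 ≤ a ∧ a ≤ X) ∧ (1 ≤ b ∧ b ≤ X) ∧ (1 ≤ c ∧ c ≤ X) := by
  unfold Box
  rw [mem_product, mem_product, mem_Icc, mem_Icc, mem_Icc]

open scoped Classical in
/-- The same entry is isolated. -/
noncomputable def SS (X : ℕ) : Finset (ℕ × ℕ × ℕ) :=
  {t ∈ Box X | Al t.1 t.2.1 t.2.2 ∧ Al (t.1 + 1) (t.2.1 + 1) (t.2.2 + 1) ∧ t.1 ≠ t.2.2 ∧ t.2.1 ≠ t.2.2}

open scoped Classical in
/-- Different entries are isolated. -/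
noncomputable def DD (X : ℕ) : Finset (ℕ × ℕ × ℕ) :=
  {t ∈ Box X | Al t.1 t.2.1 t.2.2 ∧ Al (t.1 + 1) (t.2.2 + 1) (t.2.1 + 1) ∧ t.2.1 ≠ t.2.2}

/-- A product of distinct primes that all divide `z`. -/
lemma rad_dvd (n : ℕ) (z : ℤ) (h : ∀ p ∈ n.primeFactors, (p : ℤ) ∣ z) : (rad n : ℤ) ∣ z := by
  have h1 : rad n ∣ z.natAbs := by
    unfold rad
    refine Finset.prod_primes_dvd _ (fun p hp => (Nat.prime_of_mem_primeFactors hp).prime) (fun p hp => ?_)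
    exact Int.natCast_dvd.1 (h p hp)
  exact Int.natCast_dvd.2 h1

lemma rad_mul (m n : ℕ) (h : Nat.Coprime m n) : rad (m * n) = rad m * rad n := by
  unfold rad
  rw [h.primeFactors_mul, Finset.prod_union h.disjoint_primeFactors]

lemma dvd_of_sub {a c p : ℕ} (ha : a.primeFactors ⊆ c.primeFactors) (hp : p ∈ a.primeFactors) : (p : ℤ) ∣ (c : ℤ) - a := by
  have h1 : p ∣ a := Nat.dvd_of_mem_primeFactors hp
  have h2 : p ∣ c := Nat.dvd_of_mem_primeFactors (ha hp)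
  exact dvd_sub (Int.natCast_dvd_natCast.2 h2) (Int.natCast_dvd_natCast.2 h1)

/-- The congruence for the same isolated entry. -/
lemma congS (a c : ℕ) (h1 : a.primeFactors ⊆ c.primeFactors) (h2 : (a + 1).primeFactors ⊆ (c + 1).primeFactors) :
    ((rad a * rad (a + 1) : ℕ) : ℤ) ∣ (c : ℤ) - a := by
  have hco : Nat.Coprime a (a + 1) := by
    rw [Nat.coprime_self_add_right]
    exact Nat.coprime_one_right a
  rw [← rad_mul a (a + 1) hco]
  refine rad_dvd _ _ fun p hp => ?_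
  rw [hco.primeFactors_mul, mem_union] at hp
  rcases hp with hp | hp
  · exact dvd_of_sub h1 hp
  · have := dvd_of_sub h2 hp
    have e : ((c + 1 : ℕ) : ℤ) - ((a + 1 : ℕ) : ℤ) = (c : ℤ) - a := by push_cast; ring
    rwa [e] at this

/-- The congruence for different isolated entries. -/
lemma congD (b c : ℕ) (h1 : b.primeFactors ⊆ c.primeFactors) (h2 : (c + 1).primeFactors ⊆ (b + 1).primeFactors) :
    ((rad b * rad (c + 1) : ℕ) : ℤ) ∣ (c : ℤ) - b := by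
  have hco : Nat.Coprime b (c + 1) := by
    by_contra hne
    obtain ⟨p, hp, hpb, hpc⟩ := Nat.Prime.not_coprime_iff_dvd.1 hne
    by_cases hb : b = 0
    · subst hb
      have : (0 + 1).primeFactors = ∅ := by simp
      rw [this] at h2
      have h3 : p ∈ (c + 1).primeFactors := Nat.mem_primeFactors.2 ⟨hp, hpc, by omega⟩
      exact absurd (h2 h3) (Finset.notMem_empty p)
    · have h3 : p ∈ b.primeFactors := Nat.mem_primeFactors.2 ⟨hp, hpb, hb⟩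
      have h4 : p ∣ c := Nat.dvd_of_mem_primeFactors (h1 h3)
      have h5 : p ∣ 1 := (Nat.dvd_add_right h4).1 hpc
      exact hp.one_lt.ne' (Nat.dvd_one.1 h5)
  rw [← rad_mul b (c + 1) hco]
  refine rad_dvd _ _ fun p hp => ?_
  rw [hco.primeFactors_mul, mem_union] at hp
  rcases hp with hp | hp
  · exact dvd_of_sub h1 hp
  · have := dvd_of_sub h2 hp
    have e : (c : ℤ) - b = -(((b + 1 : ℕ) : ℤ) - ((c + 1 : ℕ) : ℤ)) := by push_cast; ring
    rw [e]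
    exact (dvd_neg).2 this

open scoped Classical in
/-- The `c` with `c ≡ a` modulo `R`, `c ≠ a`. -/
noncomputable def CC (X R a : ℕ) : Finset ℕ := {c ∈ Icc 1 X | c ≠ a ∧ ((R : ℕ) : ℤ) ∣ (c : ℤ) - a}

lemma CC_card (X R a : ℕ) (hR : 1 ≤ R) (ha : 1 ≤ a) (haX : a ≤ X) : ((#(CC X R a) : ℕ) : ℝ) ≤ 2 * X / R := by
  have hR0 : (0 : ℤ) < R := by exact_mod_cast hR
  have hmap : ∀ c ∈ CC X R a, ((c : ℤ) - a) / R ∈ (Icc (-((X / R : ℕ) : ℤ)) ((X / R : ℕ) : ℤ)).erase 0 := by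
    intro c hc
    obtain ⟨h1, h2, k, hk⟩ := mem_filter.1 hc
    have h3 := mem_Icc.1 h1
    have hk' : ((c : ℤ) - a) / R = k := by
      rw [hk, Int.mul_ediv_cancel_left _ hR0.ne']
    rw [hk', mem_erase, mem_Icc]
    have hk0 : k ≠ 0 := by
      rintro rfl
      rw [mul_zero] at hk
      exact h2 (by omega)
    have hc1 : (c : ℤ) ≤ X := by exact_mod_cast h3.2
    have hc2 : (1 : ℤ) ≤ c := by exact_mod_cast h3.1
    have ha1 : (a : ℤ) ≤ X := by exact_mod_cast haX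
    have ha2 : (1 : ℤ) ≤ a := by exact_mod_cast ha
    have hdiv : ((X / R : ℕ) : ℤ) = (X : ℤ) / R := Int.natCast_div X R
    refine ⟨hk0, ?_, ?_⟩
    · rw [hdiv]
      have : -k ≤ (X : ℤ) / R := by
        rw [Int.le_ediv_iff_mul_le hR0]
        nlinarith
      linarith
    · rw [hdiv, Int.le_ediv_iff_mul_le hR0]
      nlinarith
  have hinj : Set.InjOn (fun c : ℕ => ((c : ℤ) - a) / R) (CC X R a) := by
    intro c hc d hd hcd
    obtain ⟨-, -, k, hk⟩ := mem_filter.1 (Finset.mem_coe.1 hc)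
    obtain ⟨-, -, l, hl⟩ := mem_filter.1 (Finset.mem_coe.1 hd)
    change ((c : ℤ) - a) / R = ((d : ℤ) - a) / R at hcd
    rw [hk, hl, Int.mul_ediv_cancel_left _ hR0.ne', Int.mul_ediv_cancel_left _ hR0.ne'] at hcd
    rw [hcd, ← hl] at hk
    omega
  have hcard := Finset.card_le_card_of_injOn _ hmap hinj
  have h0 : (0 : ℤ) ∈ Icc (-((X / R : ℕ) : ℤ)) ((X / R : ℕ) : ℤ) := by
    rw [mem_Icc]
    exact ⟨neg_nonpos.2 (Int.natCast_nonneg _), Int.natCast_nonneg _⟩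
  rw [Finset.card_erase_of_mem h0, Int.card_Icc] at hcard
  have h5 : #(CC X R a) ≤ 2 * (X / R) := by omega
  have h6 : ((X / R : ℕ) : ℝ) ≤ X / R := Nat.cast_div_le
  calc ((#(CC X R a) : ℕ) : ℝ) ≤ ((2 * (X / R) : ℕ) : ℝ) := by exact_mod_cast h5
    _ = 2 * ((X / R : ℕ) : ℝ) := by push_cast; ring
    _ ≤ 2 * ((X : ℝ) / R) := by linarith
    _ = 2 * X / R := by ring

/-- A union of few images. -/
lemma card_bi {ι : Type} (s : Finset ι) (f : ι → Finset (ℕ × ℕ × ℕ)) (g : ι → ℝ) (h : ∀ i ∈ s, ((#(f i) : ℕ) : ℝ) ≤ g i) :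
    ((#(s.biUnion f) : ℕ) : ℝ) ≤ ∑ i ∈ s, g i := by
  calc ((#(s.biUnion f) : ℕ) : ℝ) ≤ ((∑ i ∈ s, #(f i) : ℕ) : ℝ) := by exact_mod_cast Finset.card_biUnion_le
    _ = ∑ i ∈ s, ((#(f i) : ℕ) : ℝ) := by push_cast; rfl
    _ ≤ ∑ i ∈ s, g i := Finset.sum_le_sum h

lemma card_bi' {ι : Type} (s : Finset ι) (f : ι → Finset (ℕ × ℕ × ℕ)) (M N : ℝ) (hN : 0 ≤ N) (hs : ((#s : ℕ) : ℝ) ≤ M)
    (h : ∀ i ∈ s, ((#(f i) : ℕ) : ℝ) ≤ N) : ((#(s.biUnion f) : ℕ) : ℝ) ≤ M * N := by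
  refine (card_bi s f (fun _ => N) h).trans ?_
  rw [Finset.sum_const, nsmul_eq_mul]
  exact mul_le_mul_of_nonneg_right hs hN

lemma card_im {ι : Type} (s : Finset ι) (f : ι → ℕ × ℕ × ℕ) (M : ℝ) (hs : ((#s : ℕ) : ℝ) ≤ M) :
    ((#(s.image f) : ℕ) : ℝ) ≤ M := by
  refine le_trans ?_ hs
  exact_mod_cast Finset.card_image_le

/-- The `a ≤ X` with `rad (a + 1) ≤ q`. -/
lemma small1 (X q : ℕ) (K : ℝ) (hK : ∀ m : ℕ, 1 ≤ m → m ≤ (X + 1) ^ 2 → ((#(Sm (X + 1) m) : ℕ) : ℝ) ≤ K) :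
    ((#{a ∈ Icc 1 X | rad (a + 1) ≤ q} : ℕ) : ℝ) ≤ q * K := by
  refine le_trans ?_ (rad_count X q K hK)
  have : #{a ∈ Icc 1 X | rad (a + 1) ≤ q} ≤ #{n ∈ Icc 1 (X + 1) | rad n ≤ q} := by
    refine Finset.card_le_card_of_injOn (fun a => a + 1) (fun a ha => ?_) (fun a _ b _ h => Nat.succ_injective h)
    obtain ⟨h1, h2⟩ := mem_filter.1 ha
    have h3 := mem_Icc.1 h1
    simp only [Finset.coe_filter, Set.mem_ofPred_eq, mem_Icc]
    exact ⟨⟨by omega, by omega⟩, h2⟩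
  exact_mod_cast this

/-- The `b ≤ X` with `rad b ≤ q`. -/
lemma small0 (X q : ℕ) (K : ℝ) (hK : ∀ m : ℕ, 1 ≤ m → m ≤ (X + 1) ^ 2 → ((#(Sm (X + 1) m) : ℕ) : ℝ) ≤ K) :
    ((#{a ∈ Icc 1 X | rad a ≤ q} : ℕ) : ℝ) ≤ q * K := by
  refine le_trans ?_ (rad_count X q K hK)
  have : #{a ∈ Icc 1 X | rad a ≤ q} ≤ #{n ∈ Icc 1 (X + 1) | rad n ≤ q} := by
    refine Finset.card_le_card (fun a ha => ?_)
    obtain ⟨h1, h2⟩ := mem_filter.1 ha
    have h3 := mem_Icc.1 h1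
    rw [mem_filter, mem_Icc]
    exact ⟨⟨by omega, by omega⟩, h2⟩
  exact_mod_cast this

/-- Different isolated entries. -/
theorem DD_card (X : ℕ) (K : ℝ) (hK : ∀ m : ℕ, 1 ≤ m → m ≤ (X + 1) ^ 2 → ((#(Sm (X + 1) m) : ℕ) : ℝ) ≤ K) :
    ((#(DD X) : ℕ) : ℝ) ≤ 2 * (Nat.sqrt X) * K ^ 3 := by
  classical
  have hK0 : 0 ≤ K := le_trans (Nat.cast_nonneg _) (hK 1 le_rfl (Nat.one_le_pow _ _ (by omega)))
  set s := Nat.sqrt X with hs
  set U1 : Finset (ℕ × ℕ × ℕ) := ({b ∈ Icc 1 X | rad b ≤ s} : Finset ℕ).biUnion fun b =>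
    (Sm (X + 1) (b + 1)).biUnion fun a' => (Sm (X + 1) (b + 1)).image fun c' => (a' - 1, b, c' - 1) with hU1
  set U2 : Finset (ℕ × ℕ × ℕ) := ({c ∈ Icc 1 X | rad (c + 1) ≤ s} : Finset ℕ).biUnion fun c =>
    (Sm (X + 1) c).biUnion fun a => (Sm (X + 1) c).image fun b => (a, b, c) with hU2
  have hsub : DD X ⊆ U1 ∪ U2 := by
    rintro ⟨a, b, c⟩ ht
    unfold DD at ht
    rw [mem_filter] at ht
    obtain ⟨h1, h2, h3, h4⟩ := ht
    simp only at h2 h3 h4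
    rw [mem_Box] at h1
    obtain ⟨⟨ha1, haX⟩, ⟨hb1, hbX⟩, ⟨hc1, hcX⟩⟩ := h1
    have hdvd := congD b c h2.2.1 h3.2.1
    have hle : rad b * rad (c + 1) < X + 1 := by
      have h5 : (c : ℤ) - b ≠ 0 := by omega
      have h6 := Int.le_of_dvd (abs_pos.2 h5) ((dvd_abs _ _).2 hdvd)
      have h7 : |(c : ℤ) - b| ≤ X := by
        rw [abs_le]
        omega
      have h8 : ((rad b * rad (c + 1) : ℕ) : ℤ) ≤ X := h6.trans h7
      have h9 : rad b * rad (c + 1) ≤ X := by exact_mod_cast h8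
      omega
    rw [mem_union]
    by_cases hb : rad b ≤ s
    · left
      rw [hU1, mem_biUnion]
      refine ⟨b, mem_filter.2 ⟨mem_Icc.2 ⟨hb1, hbX⟩, hb⟩, ?_⟩
      rw [mem_biUnion]
      refine ⟨a + 1, ?_, ?_⟩
      · unfold Sm
        exact mem_filter.2 ⟨mem_Icc.2 ⟨by omega, by omega⟩, h3.1⟩
      · rw [mem_image]
        refine ⟨c + 1, ?_, by simp⟩
        unfold Sm
        exact mem_filter.2 ⟨mem_Icc.2 ⟨by omega, by omega⟩, h3.2.1⟩
    · right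
      have hcs : rad (c + 1) ≤ s := by
        by_contra hne
        have h10 : (s + 1) * (s + 1) ≤ rad b * rad (c + 1) := Nat.mul_le_mul (by omega) (by omega)
        have h11 : X < (s + 1) * (s + 1) := Nat.lt_succ_sqrt X
        omega
      rw [hU2, mem_biUnion]
      refine ⟨c, mem_filter.2 ⟨mem_Icc.2 ⟨hc1, hcX⟩, hcs⟩, ?_⟩
      rw [mem_biUnion]
      refine ⟨a, ?_, ?_⟩
      · unfold Sm
        exact mem_filter.2 ⟨mem_Icc.2 ⟨by omega, by omega⟩, h2.1⟩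
      · rw [mem_image]
        refine ⟨b, ?_, rfl⟩
        unfold Sm
        exact mem_filter.2 ⟨mem_Icc.2 ⟨by omega, by omega⟩, h2.2.1⟩
  have hKb : ∀ m : ℕ, 1 ≤ m → m ≤ X + 1 → ((#(Sm (X + 1) m) : ℕ) : ℝ) ≤ K := by
    intro m h1 h2
    refine hK m h1 (h2.trans ?_)
    nlinarith
  have c1 : ((#U1 : ℕ) : ℝ) ≤ (s * K) * (K * K) := by
    refine card_bi' _ _ _ _ (by positivity) (small0 X s K hK) fun b hb => ?_
    have hb' := mem_Icc.1 (mem_filter.1 hb).1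
    refine card_bi' _ _ _ _ hK0 (hKb _ (by omega) (by omega)) fun a' _ => ?_
    exact card_im _ _ _ (hKb _ (by omega) (by omega))
  have c2 : ((#U2 : ℕ) : ℝ) ≤ (s * K) * (K * K) := by
    refine card_bi' _ _ _ _ (by positivity) (small1 X s K hK) fun c hc => ?_
    have hc' := mem_Icc.1 (mem_filter.1 hc).1
    refine card_bi' _ _ _ _ hK0 (hKb _ (by omega) (by omega)) fun a' _ => ?_
    exact card_im _ _ _ (hKb _ (by omega) (by omega))
  have c3 : ((#(DD X) : ℕ) : ℝ) ≤ ((#U1 : ℕ) : ℝ) + ((#U2 : ℕ) : ℝ) := by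
    exact_mod_cast (Finset.card_le_card hsub).trans (Finset.card_union_le _ _)
  calc ((#(DD X) : ℕ) : ℝ) ≤ (s * K) * (K * K) + (s * K) * (K * K) := by linarith
    _ = 2 * s * K ^ 3 := by ring

/-- The same entry is isolated. -/
theorem SS_card (X q : ℕ) (K : ℝ) (hX : 1 ≤ X) (hq : 1 ≤ q)
    (hK : ∀ m : ℕ, 1 ≤ m → m ≤ (X + 1) ^ 2 → ((#(Sm (X + 1) m) : ℕ) : ℝ) ≤ K) :
    ((#(SS X) : ℕ) : ℝ) ≤ q ^ 2 * K ^ 3 + 4 * (X / q) * K ^ 2 * (1 + Real.log X) := by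
  classical
  have hK0 : 0 ≤ K := le_trans (Nat.cast_nonneg _) (hK 1 le_rfl (Nat.one_le_pow _ _ (by omega)))
  have hKb : ∀ m : ℕ, 1 ≤ m → m ≤ X + 1 → ((#(Sm (X + 1) m) : ℕ) : ℝ) ≤ K := by
    intro m h1 h2
    refine hK m h1 (h2.trans ?_)
    nlinarith
  set A : Finset ℕ := {a ∈ Icc 1 X | rad (a + 1) ≤ q} with hA
  set B : Finset ℕ := {a ∈ Icc 1 X | q < rad (a + 1)} with hB
  set U1 : Finset (ℕ × ℕ × ℕ) := A.biUnion fun a => A.biUnion fun b => (Sm (X + 1) (a * b)).image fun c => (a, b, c) with hU1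
  set U2 : Finset (ℕ × ℕ × ℕ) := B.biUnion fun a => (CC X (rad a * rad (a + 1)) a).biUnion fun c =>
    (Sm (X + 1) c).image fun b => (a, b, c) with hU2
  set U3 : Finset (ℕ × ℕ × ℕ) := B.biUnion fun b => (CC X (rad b * rad (b + 1)) b).biUnion fun c =>
    (Sm (X + 1) c).image fun a => (a, b, c) with hU3
  have hsub : SS X ⊆ U1 ∪ (U2 ∪ U3) := by
    rintro ⟨a, b, c⟩ ht
    unfold SS at ht
    rw [mem_filter] at ht
    obtain ⟨h1, h2, h3, h4, h5⟩ := ht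
    simp only at h2 h3 h4 h5
    rw [mem_Box] at h1
    obtain ⟨⟨ha1, haX⟩, ⟨hb1, hbX⟩, ⟨hc1, hcX⟩⟩ := h1
    rw [mem_union, mem_union]
    by_cases ha : q < rad (a + 1)
    · right
      left
      rw [hU2, mem_biUnion]
      refine ⟨a, mem_filter.2 ⟨mem_Icc.2 ⟨ha1, haX⟩, ha⟩, ?_⟩
      rw [mem_biUnion]
      refine ⟨c, ?_, ?_⟩
      · unfold CC
        exact mem_filter.2 ⟨mem_Icc.2 ⟨hc1, hcX⟩, Ne.symm h4, congS a c h2.1 h3.1⟩
      · rw [mem_image]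
        refine ⟨b, ?_, rfl⟩
        unfold Sm
        exact mem_filter.2 ⟨mem_Icc.2 ⟨by omega, by omega⟩, h2.2.1⟩
    · by_cases hb : q < rad (b + 1)
      · right
        right
        rw [hU3, mem_biUnion]
        refine ⟨b, mem_filter.2 ⟨mem_Icc.2 ⟨hb1, hbX⟩, hb⟩, ?_⟩
        rw [mem_biUnion]
        refine ⟨c, ?_, ?_⟩
        · unfold CC
          exact mem_filter.2 ⟨mem_Icc.2 ⟨hc1, hcX⟩, Ne.symm h5, congS b c h2.2.1 h3.2.1⟩
        · rw [mem_image]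
          refine ⟨a, ?_, rfl⟩
          unfold Sm
          exact mem_filter.2 ⟨mem_Icc.2 ⟨by omega, by omega⟩, h2.1⟩
      · left
        rw [hU1, mem_biUnion]
        refine ⟨a, mem_filter.2 ⟨mem_Icc.2 ⟨ha1, haX⟩, not_lt.1 ha⟩, ?_⟩
        rw [mem_biUnion]
        refine ⟨b, mem_filter.2 ⟨mem_Icc.2 ⟨hb1, hbX⟩, not_lt.1 hb⟩, ?_⟩
        rw [mem_image]
        refine ⟨c, ?_, rfl⟩
        unfold Sm
        refine mem_filter.2 ⟨mem_Icc.2 ⟨by omega, by omega⟩, ?_⟩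
        rw [Nat.primeFactors_mul (by omega) (by omega)]
        exact h2.2.2
  have c1 : ((#U1 : ℕ) : ℝ) ≤ (q * K) * ((q * K) * K) := by
    refine card_bi' _ _ _ _ (by positivity) (small1 X q K hK) fun a ha => ?_
    refine card_bi' _ _ _ _ hK0 (small1 X q K hK) fun b hb => ?_
    have ha' := mem_Icc.1 (mem_filter.1 ha).1
    have hb' := mem_Icc.1 (mem_filter.1 hb).1
    refine card_im _ _ _ (hK _ (Nat.mul_pos ha'.1 hb'.1) ?_)
    calc a * b ≤ X * X := Nat.mul_le_mul ha'.2 hb'.2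
      _ ≤ (X + 1) ^ 2 := by nlinarith
  have hq0 : (0 : ℝ) < q := by exact_mod_cast hq
  have hsumB : ∑ a ∈ B, (2 * X / ((rad a * rad (a + 1) : ℕ) : ℝ)) * K ≤ 2 * (X / q) * K ^ 2 * (1 + Real.log X) := by
    have h1 : ∀ a ∈ B, (2 * X / ((rad a * rad (a + 1) : ℕ) : ℝ)) * K ≤ (2 * (X / q) * K) * (1 / (rad a : ℝ)) := by
      intro a ha
      have hra : (0 : ℝ) < rad a := by exact_mod_cast rad_pos a
      have hra1 : (q : ℝ) ≤ rad (a + 1) := by exact_mod_cast (mem_filter.1 ha).2.le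
      have h2 : (2 : ℝ) * X / ((rad a * rad (a + 1) : ℕ) : ℝ) ≤ (2 * (X / q)) * (1 / (rad a : ℝ)) := by
        push_cast
        have h3 : (2 : ℝ) * X / (rad a * rad (a + 1)) ≤ 2 * X / (rad a * q) := by
          refine div_le_div_of_nonneg_left (by positivity) (by positivity) ?_
          exact mul_le_mul_of_nonneg_left hra1 hra.le
        refine h3.trans (le_of_eq ?_)
        field_simp
      calc (2 * X / ((rad a * rad (a + 1) : ℕ) : ℝ)) * K ≤ ((2 * (X / q)) * (1 / (rad a : ℝ))) * K :=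
            mul_le_mul_of_nonneg_right h2 hK0
        _ = (2 * (X / q) * K) * (1 / (rad a : ℝ)) := by ring
    refine (Finset.sum_le_sum h1).trans ?_
    rw [← Finset.mul_sum]
    have h4 : ∑ a ∈ B, (1 / (rad a : ℝ)) ≤ ∑ a ∈ Icc 1 X, (1 / (rad a : ℝ)) := by
      refine Finset.sum_le_sum_of_subset_of_nonneg (Finset.filter_subset _ _) fun a _ _ => by positivity
    have h5 := h4.trans (rad_sum X K hX hK)
    calc (2 * (X / q) * K) * ∑ a ∈ B, (1 / (rad a : ℝ)) ≤ (2 * (X / q) * K) * (K * (1 + Real.log X)) :=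
          mul_le_mul_of_nonneg_left h5 (by positivity)
      _ = 2 * (X / q) * K ^ 2 * (1 + Real.log X) := by ring
  have c2 : ((#U2 : ℕ) : ℝ) ≤ 2 * (X / q) * K ^ 2 * (1 + Real.log X) := by
    refine le_trans (card_bi _ _ _ fun a ha => ?_) hsumB
    have ha' := mem_Icc.1 (mem_filter.1 ha).1
    refine card_bi' _ _ _ _ hK0 (CC_card X _ a (Nat.mul_pos (rad_pos a) (rad_pos (a + 1))) ha'.1 ha'.2) fun c hc => ?_
    have hc' := mem_Icc.1 (mem_filter.1 hc).1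
    exact card_im _ _ _ (hKb _ hc'.1 (by omega))
  have c3 : ((#U3 : ℕ) : ℝ) ≤ 2 * (X / q) * K ^ 2 * (1 + Real.log X) := by
    refine le_trans (card_bi _ _ _ fun a ha => ?_) hsumB
    have ha' := mem_Icc.1 (mem_filter.1 ha).1
    refine card_bi' _ _ _ _ hK0 (CC_card X _ a (Nat.mul_pos (rad_pos a) (rad_pos (a + 1))) ha'.1 ha'.2) fun c hc => ?_
    have hc' := mem_Icc.1 (mem_filter.1 hc).1
    exact card_im _ _ _ (hKb _ hc'.1 (by omega))
  have c4 : ((#(SS X) : ℕ) : ℝ) ≤ ((#U1 : ℕ) : ℝ) + (((#U2 : ℕ) : ℝ) + ((#U3 : ℕ) : ℝ)) := by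
    have := (Finset.card_le_card hsub).trans ((Finset.card_union_le _ _).trans (Nat.add_le_add_left (Finset.card_union_le _ _) _))
    exact_mod_cast this
  calc ((#(SS X) : ℕ) : ℝ) ≤ (q * K) * ((q * K) * K) + (2 * (X / q) * K ^ 2 * (1 + Real.log X) + 2 * (X / q) * K ^ 2 * (1 + Real.log X)) := by
        linarith
    _ = q ^ 2 * K ^ 3 + 4 * (X / q) * K ^ 2 * (1 + Real.log X) := by ring

end Pool.Agent.helper34.ET
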